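import Pool.Agent.H906.EhrM.Lattice

/-!
# Ehrhart's volume bound, for several bodies and for measurable weights

`result`: if `K_1, ..., K_m` are compact convex sets in `ℝ^d`, `f_i : K_i → [0,1]` are measurable
weights with positive mass and barycentre `0`, and the interior of `K_1 + ... + K_m` contains no
nonzero point of the lattice `A ℤ^d`, then
`∑ (∫ f_i)^(1/d) ≤ (d+1) (|det A| / d!)^(1/d)`.

For `m = 1` and `f_1 = 1` this is the bound of the problem (`ehrhart` below).
-/

set_option autoImplicit false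

open MeasureTheory Set

namespace Pool.Agent.Results.MP_4c844b_co.SeveralBodies

noncomputable section

/-- The Minkowski sum `K_1 + ... + K_m` of `m` subsets of `ℝ^d`. -/
def minkowskiSum {d m : ℕ} (K : Fin m → Set (Fin d → ℝ)) : Set (Fin d → ℝ) :=
  {x | ∃ y : Fin m → (Fin d → ℝ), (∀ i, y i ∈ K i) ∧ x = ∑ i, y i}

/-- Let `𝕃 = A ℤ^d` be a lattice, `K_1, ..., K_m` compact convex sets, `f_i` integrable weights on
`K_i` with values in `[0,1]`, positive mass and barycentre `0`. If the interior of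
`K_1 + ... + K_m` contains no nonzero point of `𝕃`, then
`∑ (∫_{K_i} f_i)^(1/d) ≤ (d+1) (det 𝕃 / d!)^(1/d)`. -/
theorem result (d : ℕ) (hd : 1 ≤ d) (A : Matrix (Fin d) (Fin d) ℝ) (hA : A.det ≠ 0)
    (m : ℕ) (K : Fin m → Set (Fin d → ℝ)) (f : Fin m → (Fin d → ℝ) → ℝ)
    (hK : ∀ i, IsCompact (K i)) (hKc : ∀ i, Convex ℝ (K i))
    (hf : ∀ i, IntegrableOn (f i) (K i)) (hf01 : ∀ i, ∀ x ∈ K i, 0 ≤ f i x ∧ f i x ≤ 1)
    (hpos : ∀ i, 0 < ∫ x in K i, f i x)
    (hcen : ∀ i, ∫ x in K i, f i x • x = 0)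
    (hL : ∀ z : Fin d → ℤ, A.mulVec (fun j => (z j : ℝ)) ∈ interior (minkowskiSum K) → z = 0) :
    ∑ i, (∫ x in K i, f i x) ^ ((d : ℝ)⁻¹) ≤
      ((d : ℝ) + 1) * (|A.det| / d.factorial) ^ ((d : ℝ)⁻¹) := by
  rcases Nat.eq_zero_or_pos m with hm | hm
  · subst hm
    rw [Finset.univ_eq_empty, Finset.sum_empty]
    positivity
  have hne : Nonempty (Fin m) := ⟨⟨0, hm⟩⟩
  have hdet : LinearMap.det (Matrix.toLin' A) ≠ 0 := by
    rw [LinearMap.det_toLin']; exact hA
  set T : (Fin d → ℝ) ≃L[ℝ] (Fin d → ℝ) :=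
    (LinearMap.equivOfDetNeZero (Matrix.toLin' A) hdet).toContinuousLinearEquiv with hT
  have hTa : ∀ x, T x = A.mulVec x := fun x => rfl
  have hTd : LinearMap.det (T : (Fin d → ℝ) →ₗ[ℝ] (Fin d → ℝ)) = A.det := by
    rw [← LinearMap.det_toLin' A]
    congr 1
  have h := Pool.Agent.H906.EhrM.lattice_bound hd T hK hKc (fun z hz => hL z hz) hf hf01
    (fun i j => by
      have hint : Integrable (fun x : Fin d → ℝ => f i x • x) (volume.restrict (K i)) := by
        refine Integrable.of_eval fun l => ?_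
        exact Pool.Agent.H906.EhrM.mul_coord_integrable (hK i) (hf i) l
      have := (ContinuousLinearMap.proj (R := ℝ) (φ := fun _ : Fin d => ℝ) j).integral_comp_comm hint
      rw [hcen i, map_zero] at this
      exact this) hpos
  rw [hTd] at h
  exact h

/-- The bound asked for in the problem, for every `d ≥ 1`: the case `m = 1`, `f_1 = 1`. -/
theorem ehrhart (d : ℕ) (hd : 1 ≤ d) (A : Matrix (Fin d) (Fin d) ℝ) (hA : A.det ≠ 0)
    (K : Set (Fin d → ℝ)) (hK : IsCompact K) (hKc : Convex ℝ K) (hne : (interior K).Nonempty)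
    (hcen : (volume K).toReal⁻¹ • ∫ x in K, x = 0)
    (hL : ∀ z : Fin d → ℤ, A.mulVec (fun j => (z j : ℝ)) ∈ interior K → z = 0) :
    (volume K).toReal ≤ ((d : ℝ) + 1) ^ d / d.factorial * |A.det| := by
  have hVpos : 0 < (volume K).toReal := by
    have h1 : 0 < volume K := by
      have : 0 < volume (interior K) := isOpen_interior.measure_pos volume hne
      exact this.trans_le (measure_mono interior_subset)
    exact ENNReal.toReal_pos h1.ne' hK.measure_lt_top.ne
  have hI : (∫ x in K, x) = 0 := by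
    rcases smul_eq_zero.1 hcen with h | h
    · exact absurd h (inv_ne_zero hVpos.ne')
    · exact h
  have hms : minkowskiSum (fun _ : Fin 1 => K) = K := by
    ext x
    constructor
    · rintro ⟨y, hy, rfl⟩
      rw [Fin.sum_univ_one]
      exact hy 0
    · intro hx
      exact ⟨fun _ => x, fun _ => hx, by rw [Fin.sum_univ_one]⟩
  have h := result d hd A hA 1 (fun _ => K) (fun _ _ => 1) (fun _ => hK) (fun _ => hKc)
    (fun _ => continuousOn_const.integrableOn_compact hK) (fun _ _ _ => ⟨zero_le_one, le_rfl⟩)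
    (fun _ => by
      rw [setIntegral_const, smul_eq_mul, mul_one]
      exact hVpos)
    (fun _ => by
      simp only [one_smul]
      exact hI)
    (by rw [hms]; exact hL)
  rw [Fin.sum_univ_one, setIntegral_const, smul_eq_mul, mul_one] at h
  have hV : volume.real K = (volume K).toReal := rfl
  rw [hV] at h
  have hD : 0 ≤ |A.det| / (d.factorial : ℝ) := by positivity
  have h1 := pow_le_pow_left₀ (Real.rpow_nonneg hVpos.le _) h d
  rw [mul_pow, Real.rpow_inv_natCast_pow hVpos.le (by omega),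
    Real.rpow_inv_natCast_pow hD (by omega)] at h1
  calc (volume K).toReal ≤ ((d : ℝ) + 1) ^ d * (|A.det| / d.factorial) := h1
    _ = _ := by ring

end

end Pool.Agent.Results.MP_4c844b_co.SeveralBodies
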